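import Pool.Agent.Helper19.BA.NdUb
import Pool.Agent.Helper45.BA.Chain

/-!
# Project BA, Q4: meeting many dense sets of nodes
-/

set_option autoImplicit false

namespace Pool.Agent.Helper94.BA

open Pool.Agent.Helper33.HM

section

variable {P₀ I : Type 1} [Preorder P₀] [LinearOrder I] {h : Ordinal.{0} → ℕ → ℕ → RO P₀}

theorem nd_meet (hI : KI I) (D : Ordinal.{0} → Nd I h → Prop)
    (up : ∀ β σ τ, σ ≤ τ → D β σ → D β τ) (dense : ∀ β σ, ∃ τ, σ ≤ τ ∧ D β τ) (σ : Nd I h) :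
    ∃ τ, σ ≤ τ ∧ ∀ β, D β τ := by
  let N := {τ : Nd I h // σ ≤ τ}
  haveI : Nonempty N := ⟨⟨σ, le_rfl⟩⟩
  have ub : ∀ (α : Ordinal.{0}) (f : Set.Iio α → N), Monotone f → ∃ d, ∀ i, f i ≤ d := by
    intro α f hf
    by_cases hne : Nonempty (Set.Iio α)
    · obtain ⟨τ, hτ⟩ := nd_ub hI (Cardinal.mk_set_le (Set.Iio α)) (fun i => (f i).1) (by
        intro a b
        rcases le_total a b with hab | hab
        · exact Or.inl (hf hab)
        · exact Or.inr (hf hab))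
      obtain ⟨i₀⟩ := hne
      exact ⟨⟨τ, (f i₀).2.trans (hτ i₀)⟩, fun i => hτ i⟩
    · exact ⟨⟨σ, le_rfl⟩, fun i => absurd ⟨i⟩ hne⟩
  obtain ⟨f, hf, hQ⟩ := exists_chain ub (fun β d => D β d.1) (by
    intro β d
    obtain ⟨τ, h1, h2⟩ := dense β d.1
    exact ⟨⟨τ, d.2.trans h1⟩, h1, h2⟩)
  obtain ⟨τ, hτ⟩ := nd_ub hI le_rfl (fun β : Ordinal.{0} => (f β).1) (by
    intro a b
    rcases le_total a b with hab | hab
    · exact Or.inl (hf hab)
    · exact Or.inr (hf hab))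
  exact ⟨τ, (f 0).2.trans (hτ 0), fun β => up β _ _ (hτ β) (hQ β)⟩

end

end Pool.Agent.Helper94.BA
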