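import Pool.Agent.Helper9.BA.CalcC2
import Pool.Agent.Helper59.BA.CalcC3

/-!
# Project BA, B23: the combinatorial core of the seal step
-/

set_option autoImplicit false
set_option linter.unusedVariables false

namespace Pool.Agent.Helper94.BA

open Pool.Agent.Helper33.HM

universe u

variable {B : Type u} [CompleteBooleanAlgebra B]

theorem h93_PC_empty (x : ℕ → B) : PC x ∅ = ⊤ := by
  simp [PC]

theorem h93_PC_le {x : ℕ → B} {s : Finset ℕ} {i : ℕ} (hi : i ∈ s) : PC x s ≤ x i :=
  (iInf_le _ i).trans (iInf_le _ hi)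

theorem h93_PC_inf_compl {y : ℕ → B} {s t : Finset ℕ} (hts : t ⊆ s) (ht : t.Nonempty) :
    PC y s ⊓ PC yᶜ t = ⊥ := by
  obtain ⟨i, hi⟩ := ht
  apply le_bot_iff.1
  calc PC y s ⊓ PC yᶜ t ≤ y i ⊓ (y i)ᶜ := inf_le_inf (h93_PC_le (hts hi)) (h93_PC_le hi)
    _ = ⊥ := inf_compl_eq_bot

theorem h93_powC_seal (D : ℕ → Finset ℕ → B) (h : ℕ → ℕ → B) (m n k : ℕ) (hm : m ≤ n) (r : ℕ) :
    ∀ v : Finset ℕ, (∀ i ∈ v, i < k) →
      (h n k)ᶜ ⊓ powC (sealC h D m) r v ≤ powC (D n) r v := by
  induction r with
  | zero => intro v _; exact inf_le_right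
  | succ r ih =>
    intro v hv
    simp only [powC, joinC]
    rw [inf_iSup_eq]
    refine iSup_le fun t => ?_
    rw [inf_iSup_eq]
    refine iSup_le fun ht => ?_
    refine le_trans ?_ (le_iSup_of_le t (le_iSup_of_le ht le_rfl))
    have h1 : (h n k)ᶜ ⊓ sealC h D m t ≤ D n t := by
      have h2 : sealC h D m t ≤ (h n k)ᶜ ⇨ D n (t.filter (· ≤ k)) :=
        (iInf_le _ n).trans ((iInf_le _ hm).trans (iInf_le _ k))
      have h3 : t.filter (· ≤ k) = t :=
        Finset.filter_true_of_mem fun i hi => (hv i (ht hi)).le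
      rw [h3] at h2
      exact (inf_le_inf_left _ h2).trans inf_himp_le
    have h4 := ih (v \ t) fun i hi => hv i (Finset.sdiff_subset hi)
    refine le_inf ?_ ?_
    · exact le_trans (inf_le_inf_left _ inf_le_left) h1
    · exact le_trans (inf_le_inf_left _ inf_le_right) h4

/-- N15c. The combinatorial core: pieces of `sealC` restricted to `[0, h(n))` are in `D n`. -/
theorem seal_core {C : Finset ℕ → B} (hC : IsCF C) (D : ℕ → Finset ℕ → B)
    (hD : ∀ n, IsCF (D n)) (hDm : ∀ n, D n ≤ D (n + 1)) (h : ℕ → ℕ → B)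
    (z y : ℕ → B) (hz : z ≤ y) (n₀ r m n k : ℕ) (hn : n₀ + r ≤ n) (hm : m ≤ n) :
    memC z (joinC (joinC C (powC (D n₀) n₀)) (joinC (PC yᶜ) (powC (sealC h D m) r))) ⊓ (h n k)ᶜ ≤
      memC (cut z n k) (joinC C (powC (D n) n)) := by
  refine le_iInf fun s => ?_
  rw [le_himp_iff]
  by_cases hs : ∀ i ∈ s, n ≤ i ∧ i < k
  · have hPC : PC (cut z n k) s ≤ PC z s := by
      refine le_iInf fun i => le_iInf fun hi => ?_
      refine (h93_PC_le hi).trans ?_
      simp only [cut]
      split_ifs
      · exact le_rfl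
      · exact bot_le
    have hzy : PC z s ≤ PC y s :=
      le_iInf fun i => le_iInf fun hi => (h93_PC_le hi).trans (hz i)
    set X : Finset ℕ → B :=
      joinC (joinC C (powC (D n₀) n₀)) (joinC (PC yᶜ) (powC (sealC h D m) r)) with hX
    -- the claim for `s`
    have claim : (h n k)ᶜ ⊓ PC y s ⊓ X s ≤ joinC C (powC (D n) n) s := by
      have hn0 : D n₀ ≤ D n :=
        monotone_nat_of_le_succ hDm (by omega)
      have key : joinC (joinC C (powC (D n₀) n₀)) (powC (D n) r) ≤ joinC C (powC (D n) n) := by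
        rw [joinC_assoc]
        refine joinC_mono le_rfl ?_
        calc joinC (powC (D n₀) n₀) (powC (D n) r)
            ≤ joinC (powC (D n) n₀) (powC (D n) r) :=
              joinC_mono (powC_mono (hD _) (hD _) hn0 le_rfl) le_rfl
          _ = powC (D n) (n₀ + r) := joinC_powC _ _ _
          _ ≤ powC (D n) n := powC_mono (hD _) (hD _) le_rfl hn
      refine le_trans ?_ (key s)
      rw [hX]
      simp only [joinC]
      rw [inf_iSup_eq]
      refine iSup_le fun t => ?_
      rw [inf_iSup_eq]
      refine iSup_le fun ht => ?_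
      rw [inf_iSup_eq, inf_iSup_eq]
      refine iSup_le fun u => ?_
      rw [inf_iSup_eq, inf_iSup_eq]
      refine iSup_le fun hu => ?_
      rcases Finset.eq_empty_or_nonempty u with rfl | hne
      · refine le_trans ?_ (le_iSup_of_le t (le_iSup_of_le ht le_rfl))
        rw [Finset.sdiff_empty]
        have h4 := h93_powC_seal D h m n k hm r (s \ t)
          fun i hi => (hs i (Finset.sdiff_subset hi)).2
        refine le_inf ?_ ?_
        · exact inf_le_right.trans inf_le_left
        · refine le_trans ?_ h4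
          refine le_inf (inf_le_left.trans inf_le_left) ?_
          exact inf_le_right.trans (inf_le_right.trans inf_le_right)
      · have hus : u ⊆ s := hu.trans Finset.sdiff_subset
        have h5 := h93_PC_inf_compl (y := y) hus hne
        refine le_trans ?_ (le_of_eq_of_le h5 bot_le)
        refine le_inf (inf_le_left.trans inf_le_right) ?_
        exact inf_le_right.trans (inf_le_right.trans inf_le_left)
    refine le_trans ?_ claim
    refine le_inf (le_inf (inf_le_left.trans inf_le_right) ?_) ?_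
    · exact inf_le_right.trans (hPC.trans hzy)
    · have h6 : memC z X ≤ PC z s ⇨ X s := iInf_le _ s
      calc memC z X ⊓ (h n k)ᶜ ⊓ PC (cut z n k) s ≤ PC z s ⊓ (PC z s ⇨ X s) :=
            le_inf (inf_le_right.trans hPC) (inf_le_left.trans (inf_le_left.trans h6))
        _ ≤ X s := inf_himp_le
  · push Not at hs
    obtain ⟨i, hi, hi'⟩ := hs
    have h0 : PC (cut z n k) s = ⊥ := by
      apply le_bot_iff.1
      refine (h93_PC_le hi).trans ?_
      simp only [cut]
      rw [if_neg]
      rintro ⟨h1, h2⟩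
      exact absurd h2 (not_lt.2 (hi' h1))
    rw [h0, inf_bot_eq]
    exact bot_le

end Pool.Agent.Helper94.BA
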