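import Pool.Agent.Helper6.BA.ResGlue

/-!
# Project BA, Q2: elements of the final algebra represented at a node
-/

set_option autoImplicit false
set_option linter.unusedSectionVars false

namespace Pool.Agent.Helper94.BA

open Pool.Agent.Helper33.HM

section AtEx

universe v

variable {P₀ I : Type v} [Preorder P₀] [LinearOrder I] {h : Ordinal.{0} → ℕ → ℕ → RO P₀}
variable {σ τ : Nd I h}

/-- Restrictions to a node are monotone. -/
theorem h93_resTo_mono {x y : QQ I h} (hxy : x ≤ y) (hy : σ ≤ y.nd) :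
    resTo (hy.trans hxy.1).2 x.p ≤ resTo hy.2 y.p :=
  Raw.h6_le_res_mono y.p.2.1.wf x.p.2.1.wf hxy.2 σ.len

/-- Every element of the algebra at `σ` represents an element of the final algebra. -/
theorem At.exists_of (U : RO (Cnd σ.F σ.len)) : ∃ V : RO (QQ I h), At σ V U := by
  refine ⟨RO.gen {x | ∃ hx : σ ≤ x.nd, resTo hx.2 x.p ∈ U}, ?_⟩
  intro x hx
  rw [RO.mem_gen]
  constructor
  · intro hg
    refine RO.mem_reg fun q hq => ?_
    obtain ⟨r, hr, rfl⟩ := exists_glue hx.2 hx.1 x.p q hq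
    have hyx : (⟨x.nd, r⟩ : QQ I h) ≤ x := ⟨le_rfl, hr⟩
    obtain ⟨z, hz, a, ⟨ha, haU⟩, hza⟩ := hg _ hyx
    have hσz : σ ≤ z.nd := hx.trans hz.1
    refine ⟨resTo hσz.2 z.p, ?_, ?_⟩
    · exact h93_resTo_mono (σ := σ) (x := z) (y := ⟨x.nd, r⟩) hz hx
    · exact RO.mem_lower (h93_resTo_mono (σ := σ) (x := z) (y := a) hza ha) haU
  · intro hU q hq
    refine ⟨q, le_rfl, q, ⟨hx.trans hq.1, ?_⟩, le_rfl⟩
    exact RO.mem_lower (h93_resTo_mono (σ := σ) hq hx) hU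

theorem At.mono (hστ : σ ≤ τ) {V : RO (QQ I h)} {U : RO (Cnd σ.F σ.len)} (hV : At σ V U) :
    At τ V (embR hστ.2 U) := by
  intro x hx
  rw [hV x (hστ.trans hx), mem_embR hστ.2 hστ.1,
    resTo_resTo hστ.2 hx.2 (hστ.trans hx).2 hστ.1]

theorem At.unique {V : RO (QQ I h)} {U U' : RO (Cnd σ.F σ.len)} (hV : At σ V U)
    (hV' : At σ V U') : U = U' := by
  refine RO.ext' fun p => ?_
  have h1 := hV ⟨σ, p⟩ le_rfl
  have h2 := hV' ⟨σ, p⟩ le_rfl
  have h3 : resTo (le_refl σ).2 p = p := Subtype.ext (resTo_self _ p)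
  simp only [h3] at h1 h2
  exact h1.symm.trans h2

theorem h93_baseQ_mono (x y : QQ I h) (hxy : x ≤ y) : x.p.1.base ≤ y.p.1.base :=
  (Raw.Le_iff.1 hxy.2).1

theorem h93_baseQ_lift (x : QQ I h) (a : P₀) (ha : a ≤ x.p.1.base) :
    ∃ r : QQ I h, r ≤ x ∧ r.p.1.base = a := by
  obtain ⟨r, hr, hra⟩ := exists_base x.p a ha
  exact ⟨⟨x.nd, r⟩, ⟨le_rfl, hr⟩, hra⟩

theorem mem_baseQ {U : RO P₀} {x : QQ I h} :
    x ∈ (baseQ U : RO (QQ I h)) ↔ x.p.1.base ∈ U :=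
  h6_mem_proj (π := fun x : QQ I h => x.p.1.base) h93_baseQ_mono h93_baseQ_lift

theorem at_baseQ (U : RO P₀) : At σ (baseQ U) (baseE U) := by
  intro x hx
  rw [mem_baseQ, mem_baseE]
  show _ ↔ (x.p.1.res σ.len).base ∈ U
  rw [Raw.base_res]

theorem baseQ_ce [Nonempty (Nd I h)] : CE (baseQ : RO P₀ → RO (QQ I h)) :=
  h6_ce_proj (π := fun x : QQ I h => x.p.1.base) h93_baseQ_mono h93_baseQ_lift
    fun a => ⟨⟨Classical.arbitrary (Nd I h), ⟨Raw.nil a, trivial, trivial⟩⟩, rfl⟩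

end AtEx

end Pool.Agent.Helper94.BA
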