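import Pool.Agent.Helper94.BA.KI

/-!
# Project BA, V3a: the index set
-/

set_option autoImplicit false

namespace Pool.Agent.Helper94.BA

open Cardinal in
theorem ki_succ : KI (Order.succ #Ordinal.{0}).ord.ToType := by
  have hinf : ℵ₀ ≤ #Ordinal.{0} := Cardinal.aleph0_le_mk _
  have hseg : ∀ i : (Order.succ #Ordinal.{0}).ord.ToType, #(Set.Iio i) ≤ #Ordinal.{0} :=
    fun i => Order.lt_succ_iff.1 (Cardinal.mk_Iio_toType_ord_lt i)
  have hIic : ∀ i : (Order.succ #Ordinal.{0}).ord.ToType, #(Set.Iic i) ≤ #Ordinal.{0} := by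
    intro i
    have h1 : Set.Iic i = Set.Iio i ∪ {i} := by
      ext j
      simp [le_iff_lt_or_eq]
    rw [h1]
    refine (Cardinal.mk_union_le _ _).trans ?_
    refine Cardinal.add_le_of_le hinf (hseg i) ?_
    rw [Cardinal.mk_singleton]
    exact Cardinal.one_lt_aleph0.le.trans hinf
  refine ⟨inferInstance, ?_, ?_, hseg⟩
  · rw [← Cardinal.mk_ne_zero_iff, Cardinal.mk_ord_toType]
    exact (Order.bot_lt_succ _).ne'
  · intro f
    by_contra hcon
    push Not at hcon
    have h1 : (Set.univ : Set (Order.succ #Ordinal.{0}).ord.ToType) ⊆ ⋃ β, Set.Iic (f β) := by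
      intro j _
      obtain ⟨β, hβ⟩ := hcon j
      exact Set.mem_iUnion.2 ⟨β, hβ⟩
    have h2 : #(Order.succ #Ordinal.{0}).ord.ToType ≤ #Ordinal.{0} := by
      rw [← Cardinal.mk_univ]
      refine (Cardinal.mk_le_mk_of_subset h1).trans ?_
      refine (Cardinal.mk_iUnion_le _).trans ?_
      calc #Ordinal.{0} * ⨆ β, #(Set.Iic (f β)) ≤ #Ordinal.{0} * #Ordinal.{0} :=
            mul_le_mul' le_rfl (ciSup_le' fun β => hIic (f β))
        _ = #Ordinal.{0} := Cardinal.mul_eq_self hinf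
    rw [Cardinal.mk_ord_toType] at h2
    exact absurd h2 (not_le.2 (Order.lt_succ _))

end Pool.Agent.Helper94.BA
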